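import Pool.Agent.R613.WM.W8

/-!
# The Good–Churchhouse bound for windows proportional to `x`, and the second negative moment of `ζ'(ρ)`

Let `M(x;H) = ∑_{|n-x|<H/2} μ(n)`. Good and Churchhouse conjecture that `M(x;H)²` is `H/ζ(2)` on average. We
treat windows of length `H = δx` for fixed `δ`, with logarithmic averages over `x`, and show unconditionally:
the bound

`(1/log Y) ∫_1^Y (M(x;δx)² / (δx)) dx/x ≤ C` for all large `Y`, with `C` independent of `δ ∈ (0,1]`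

holds if and only if all nontrivial zeros of `ζ` are on the critical line and simple, and
`∑_{|γ| ≤ T} 1/|ζ'(ρ)|² ≪ T`, the conjectured (Gonek, Hejhal) order of magnitude.

Idea: for fixed `δ` the logarithmic average has a limit in `(0, ∞]`, which is
`((1+δ/2)/δ) ∑_ρ |1 - e^(-Lρ)|² / |ρ ζ'(ρ)|²`, `L = log((1+δ/2)/(1-δ/2))`, under the weak Mertens hypothesis, and
`∞` otherwise; uniform bounds for these sums are compared with those for the moment.
-/

set_option autoImplicit false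

open Filter Topology MeasureTheory

namespace Pool.Agent.Results.MP_0575cc_nt.ProportionalWindows

/-- `M(x;H)`, the sum of `μ(n)` over the integers `n ≥ 0` with `|n - x| < H/2` -/
noncomputable def window (x H : ℝ) : ℝ :=
  ∑ n ∈ (Finset.range (⌈x + H⌉₊ + 1)).filter (fun n : ℕ => |(n : ℝ) - x| < H / 2),
    ((ArithmeticFunction.moebius n : ℤ) : ℝ)

/-- the logarithmic average over `1 ≤ x ≤ Y` of `M(x;δx)² / (δx)` -/
noncomputable def logVariance (δ Y : ℝ) : ℝ :=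
  (∫ x in (1:ℝ)..Y, window x (δ * x) ^ 2 / (δ * x) / x) / Real.log Y

/-- the nontrivial zeros of the Riemann zeta function -/
def NT : Set ℂ := {s : ℂ | riemannZeta s = 0 ∧ 0 < s.re ∧ s.re < 1}

/-- all nontrivial zeros are on the critical line and simple, and `∑_{|γ| ≤ T} 1/|ζ'(ρ)|² ≪ T` -/
def MomentBound : Prop := (∀ ρ ∈ NT, ρ.re = 1 / 2 ∧ deriv riemannZeta ρ ≠ 0) ∧
  ∃ C : ℝ, ∀ T : ℝ, 1 ≤ T → ∀ Z : Finset ℂ, (∀ ρ ∈ Z, ρ ∈ NT ∧ |ρ.im| ≤ T) →
    ∑ ρ ∈ Z, 1 / ‖deriv riemannZeta ρ‖ ^ 2 ≤ C * T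

theorem result :
    ((∃ C : ℝ, ∀ δ : ℝ, 0 < δ → δ ≤ 1 → ∀ᶠ Y : ℝ in atTop, logVariance δ Y ≤ C) ↔ MomentBound) ∧
    ((∃ C : ℝ, ∀ δ : ℝ, 0 < δ → δ ≤ 1 → ∃ᶠ Y : ℝ in atTop, logVariance δ Y ≤ C) ↔ MomentBound) := by
  have hKV : ∀ δ Y : ℝ, (∫ x in (1:ℝ)..Y, window x (δ * x) ^ 2 / (δ * x) / x) = Pool.Agent.R613.WM.KV δ Y := by
    intro δ Y
    unfold Pool.Agent.R613.WM.KV
    congr 1
    funext x
    have h1 : window x (δ * x) = Pool.Agent.R613.WM.Wn δ x := rfl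
    rw [h1, div_div]
    congr 1
    ring
  have hM : MomentBound ↔ Pool.Agent.R613.WM.GH := by
    constructor
    · rintro ⟨h1, C, hC⟩
      refine ⟨h1, max C 0, le_max_right _ _, fun T hT Z hZ => (hC T hT Z hZ).trans ?_⟩
      gcongr
      exact le_max_left _ _
    · rintro ⟨h1, C, _, hC⟩
      exact ⟨h1, C, hC⟩
  have hev : ∀ C δ : ℝ, (∀ᶠ Y : ℝ in atTop, logVariance δ Y ≤ C) ↔
      ∀ᶠ Y : ℝ in atTop, Pool.Agent.R613.WM.KV δ Y ≤ C * Real.log Y := by
    intro C δ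
    apply eventually_congr
    filter_upwards [eventually_gt_atTop (1:ℝ)] with Y hY
    unfold logVariance
    rw [hKV, div_le_iff₀ (Real.log_pos hY)]
  have hfr : ∀ C δ : ℝ, (∃ᶠ Y : ℝ in atTop, logVariance δ Y ≤ C) ↔
      ∃ᶠ Y : ℝ in atTop, Pool.Agent.R613.WM.KV δ Y ≤ C * Real.log Y := by
    intro C δ
    apply frequently_congr
    filter_upwards [eventually_gt_atTop (1:ℝ)] with Y hY
    unfold logVariance
    rw [hKV, div_le_iff₀ (Real.log_pos hY)]
  simp only [hev, hfr]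
  rw [hM]
  exact Pool.Agent.R613.WM.main_iff

end Pool.Agent.Results.MP_0575cc_nt.ProportionalWindows
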