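import Pool.Agent.R177.RF.Cont
/-!
# The Good-Churchhouse variance in Wintner's random model of the Möbius function

Let `ξ p` be independent fair random signs and let `f` be the random multiplicative function
supported on the squarefree integers with `f(p) = ξ p` (the model of Wintner for `μ`, the Rademacher random
multiplicative function).  Put `V_f(X;H) = (1/X) ∫_X^{2X} (∑_{|n-x| < H/2} f(n))² dx`.

* almost surely, for every `ε > 0`,
  `V_f(X;H) ζ(2) / H → 1` as `X → ∞`, uniformly for all real `0 < H ≤ X^(1-ε)`;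
* in particular there are deterministic multiplicative functions `f : ℕ → {-1,0,1}` with the same
  support as `μ` (the squarefree integers) for which this holds.

The proof is by the second moment of the off-diagonal part, which is governed by the number of quadruples
`a < b < a + H`, `c < d < c + H` of squarefree integers up to `N` with `abcd` a square; this number is
`≪ N^(1+δ) H` for every `δ > 0`.  Borel-Cantelli over a sparse grid of `X`'s and of `H`'s and a
chaining argument then give all `X` and all `H`.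
-/
open MeasureTheory ProbabilityTheory Filter Topology

namespace Pool.Agent.Results.MP_0575cc_nt.RandomMultiplicativeModel

/-- the multiplicative function supported on squarefree integers with value `ξ p ω` at `p` -/
noncomputable def randomMoebius {Ω : Type} (ξ : ℕ → Ω → ℝ) (ω : Ω) (n : ℕ) : ℝ :=
  if Squarefree n then ∏ p ∈ n.primeFactors, ξ p ω else 0

/-- the sum of `f` over the integers `n` with `|n - x| < H / 2` (as in the problem) -/
noncomputable def windowSum (f : ℕ → ℝ) (x H : ℝ) : ℝ :=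
  ∑ n ∈ (Finset.range (⌈x + H⌉₊ + 1)).filter (fun n : ℕ => |(n : ℝ) - x| < H / 2), f n

/-- `(1/X) ∫_X^{2X} (∑_{|n-x| < H/2} f(n))² dx` -/
noncomputable def variance (f : ℕ → ℝ) (X H : ℝ) : ℝ := (1 / X) * ∫ x in X..2 * X, (windowSum f x H) ^ 2

/-- the Good-Churchhouse asymptotic `V_f(X;H) ~ H / ζ(2)`, uniformly in `0 < H ≤ X^(1-ε)`, for every `ε > 0` -/
def UniformGoodChurchhouse (f : ℕ → ℝ) : Prop :=
  ∀ ε : ℝ, 0 < ε → ∀ η : ℝ, 0 < η → ∀ᶠ X : ℝ in atTop, ∀ H : ℝ, 0 < H → H ≤ X ^ (1 - ε) →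
    |variance f X H / (H / (Real.pi ^ 2 / 6)) - 1| ≤ η

/-- the Good-Churchhouse conjecture for `f` in place of `μ`, word for word as in the problem -/
def GoodChurchhouse (f : ℕ → ℝ) : Prop :=
  ∀ ε : ℝ, 0 < ε → ∀ H : ℝ → ℝ, (∀ᶠ X in atTop, X ^ ε < H X ∧ H X < X ^ (1 - ε)) →
    Tendsto (fun X : ℝ => variance f X (H X) / (H X / (Real.pi ^ 2 / 6))) atTop (𝓝 1)

lemma uniform_imp {f : ℕ → ℝ} (h : UniformGoodChurchhouse f) : GoodChurchhouse f := by
  intro ε hε H hH
  rw [Metric.tendsto_atTop']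
  intro η hη
  have h1 := h ε hε (η / 2) (by positivity)
  obtain ⟨N, hN⟩ := eventually_atTop.1 ((h1.and hH).and (eventually_gt_atTop 0))
  refine ⟨N, fun X hX => ?_⟩
  obtain ⟨⟨h2, h3, h4⟩, h5⟩ := hN X hX.le
  have h6 : 0 < H X := lt_trans (Real.rpow_pos_of_pos h5 _) h3
  have h7 := h2 (H X) h6 h4.le
  rw [Real.dist_eq]
  linarith

lemma almost_surely {Ω : Type} [MeasurableSpace Ω] (P : Measure Ω) [IsProbabilityMeasure P]
    (ξ : ℕ → Ω → ℝ) (hmeas : ∀ p, Measurable (ξ p)) (hsign : ∀ p ω, ξ p ω = 1 ∨ ξ p ω = -1)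
    (hmean : ∀ p, ∫ ω, ξ p ω ∂P = 0) (hind : iIndepFun ξ P) :
    ∀ᵐ ω ∂P, UniformGoodChurchhouse (randomMoebius ξ ω) := by
  filter_upwards [Pool.Agent.R177.RF.cont hmeas hsign hmean hind] with ω hω ε hε η hη
  filter_upwards [hω ε hε (η / 2) (by positivity), eventually_gt_atTop 0] with X h1 hX H hH hHX
  have h2 := h1 H hH hHX
  have e1 : (∫ x in X..2 * X, Pool.Agent.R177.RF.MM (fun n => Pool.Agent.R177.RF.rf ξ n ω) x H ^ 2) =
      ∫ x in X..2 * X, (windowSum (randomMoebius ξ ω) x H) ^ 2 := rfl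
  rw [e1] at h2
  unfold variance
  set I := ∫ x in X..2 * X, (windowSum (randomMoebius ξ ω) x H) ^ 2
  have c1 := Pool.Agent.R177.RF.cc_pos
  have c3 := Pool.Agent.R177.RF.cc_ge
  have hpi : 0 < Real.pi ^ 2 := by positivity
  have e2 : (1 / X) * I / (H / (Real.pi ^ 2 / 6)) - 1 =
      (I - Pool.Agent.R177.RF.cc * X * H) / (Pool.Agent.R177.RF.cc * (X * H)) := by
    unfold Pool.Agent.R177.RF.cc
    field_simp
  have hXH : 0 < X * H := by positivity
  rw [e2, abs_div, abs_of_pos (by positivity : 0 < Pool.Agent.R177.RF.cc * (X * H)), div_le_iff₀ (by positivity)]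
  refine h2.trans ?_
  have h3 : η * (1 / 2) * (X * H) ≤ η * Pool.Agent.R177.RF.cc * (X * H) := by
    apply mul_le_mul_of_nonneg_right _ hXH.le
    exact mul_le_mul_of_nonneg_left c3 hη.le
  linarith

/-- a fair coin -/
noncomputable def coin : Measure Bool := (PMF.uniformOfFintype Bool).toMeasure

instance : IsProbabilityMeasure coin := by unfold coin; infer_instance

/-- the sign of a coin toss -/
def sgn (b : Bool) : ℝ := if b then 1 else -1

lemma coin_mean : ∫ b, sgn b ∂coin = 0 := by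
  unfold coin
  rw [PMF.integral_eq_sum]
  simp [sgn]

lemma exists_family : ∃ (Ω : Type) (_ : MeasurableSpace Ω) (P : Measure Ω) (_ : IsProbabilityMeasure P) (ξ : ℕ → Ω → ℝ),
    (∀ p, Measurable (ξ p)) ∧ (∀ p ω, ξ p ω = 1 ∨ ξ p ω = -1) ∧ (∀ p, ∫ ω, ξ p ω ∂P = 0) ∧ iIndepFun ξ P := by
  have hs : Measurable sgn := measurable_of_countable _
  refine ⟨ℕ → Bool, inferInstance, Measure.infinitePi (fun _ => coin), inferInstance, fun p ω => sgn (ω p), ?_, ?_, ?_, ?_⟩
  · intro p
    exact hs.comp (measurable_pi_apply p)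
  · intro p ω
    show sgn (ω p) = 1 ∨ sgn (ω p) = -1
    cases ω p <;> simp [sgn]
  · intro p
    have h1 := (measurePreserving_eval_infinitePi (fun _ : ℕ => coin) p).map_eq
    have h2 := integral_map (μ := Measure.infinitePi (fun _ : ℕ => coin)) (φ := Function.eval p)
      (measurable_pi_apply p).aemeasurable (f := sgn) hs.aestronglyMeasurable
    rw [h1, coin_mean] at h2
    exact h2.symm
  · exact iIndepFun_infinitePi (P := fun _ : ℕ => coin) (X := fun _ b => sgn b) (fun _ => hs)

/-- **The Good-Churchhouse asymptotic holds almost surely for the random model of the Möbius function**, uniformly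
in `0 < H ≤ X^(1-ε)`; hence it holds for some multiplicative functions `f` with values in `{-1,0,1}` and `f² = μ²`. -/
theorem result :
    (∀ (Ω : Type) [MeasurableSpace Ω] (P : Measure Ω) [IsProbabilityMeasure P] (ξ : ℕ → Ω → ℝ),
      (∀ p, Measurable (ξ p)) → (∀ p ω, ξ p ω = 1 ∨ ξ p ω = -1) → (∀ p, ∫ ω, ξ p ω ∂P = 0) → iIndepFun ξ P →
      ∀ᵐ ω ∂P, UniformGoodChurchhouse (randomMoebius ξ ω) ∧ GoodChurchhouse (randomMoebius ξ ω)) ∧
    (∃ f : ℕ → ℝ, f 1 = 1 ∧ (∀ m n : ℕ, m.Coprime n → f (m * n) = f m * f n) ∧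
      (∀ n : ℕ, f n ^ 2 = ((ArithmeticFunction.moebius n : ℤ) : ℝ) ^ 2) ∧
      UniformGoodChurchhouse f ∧ GoodChurchhouse f) := by
  constructor
  · intro Ω _ P _ ξ h1 h2 h3 h4
    filter_upwards [almost_surely P ξ h1 h2 h3 h4] with ω hω
    exact ⟨hω, uniform_imp hω⟩
  · obtain ⟨Ω, _, P, _, ξ, h1, h2, h3, h4⟩ := exists_family
    obtain ⟨ω, hω⟩ := (almost_surely P ξ h1 h2 h3 h4).exists
    refine ⟨randomMoebius ξ ω, ?_, ?_, ?_, hω, uniform_imp hω⟩
    · unfold randomMoebius
      simp
    · intro m n hmn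
      unfold randomMoebius
      by_cases hm : Squarefree m
      · by_cases hn : Squarefree n
        · rw [if_pos ((Nat.squarefree_mul hmn).2 ⟨hm, hn⟩), if_pos hm, if_pos hn, hmn.primeFactors_mul,
            Finset.prod_union hmn.disjoint_primeFactors]
        · rw [if_neg (fun h => hn ((Nat.squarefree_mul hmn).1 h).2), if_neg hn, mul_zero]
      · rw [if_neg (fun h => hm ((Nat.squarefree_mul hmn).1 h).1), if_neg hm, zero_mul]
    · intro n
      unfold randomMoebius
      by_cases hn : Squarefree n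
      · rw [if_pos hn, Pool.Agent.R177.RF.prod_sq h2]
        have h5 : (ArithmeticFunction.moebius n : ℤ) ^ 2 = 1 := ArithmeticFunction.moebius_sq_eq_one_of_squarefree hn
        exact_mod_cast h5.symm
      · rw [if_neg hn, ArithmeticFunction.moebius_eq_zero_of_not_squarefree hn]
        simp

end Pool.Agent.Results.MP_0575cc_nt.RandomMultiplicativeModel
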