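import Pool.Agent.R613.GC.D1

/-!
# The Good–Churchhouse constant for short proportional windows, and the second negative moment of `ζ'(ρ)`

Let `M(x;H) = ∑_{|n-x|<H/2} μ(n)`. Good and Churchhouse conjecture that `M(x;H)²` is `H/ζ(2) = (6/π²) H` on
average. We treat windows of length `H = δx` with `δ` fixed, take the logarithmic average over `x`, and then let
`δ → 0`. We show unconditionally, for every `κ > 0`: the limits

`v(δ) = lim_{Y→∞} (1/log Y) ∫_1^Y (M(x;δx)² / (δx)) dx/x`  exist for `0 < δ ≤ 1`, and `v(δ) → κ` as `δ → 0+`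

if and only if all nontrivial zeros of `ζ` are on the critical line and simple, and
`∑_{|γ| ≤ T} 1/|ζ'(ρ)|² ~ (κ/π) T`. For `κ = 6/π²` this is `∑_{0<γ≤T} 1/|ζ'(ρ)|² ~ (3/π³) T`, Gonek's conjecture.

Idea: `v(δ)` is `((1+δ/2)/δ) ∑_ρ |1 - e^(-Lρ)|² / |ρ ζ'(ρ)|²`, `L = log((1+δ/2)/(1-δ/2))`, under the weak Mertens
hypothesis, and infinite otherwise; the small-`L` behaviour of the sum and the large-`T` behaviour of the moment
are both equivalent, by Tauberian arguments, to that of the Stieltjes transform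
`∑_ρ |ζ'(ρ)|⁻² / (z + γ²)` as `z → ∞`.
-/

set_option autoImplicit false

open Filter Topology MeasureTheory

namespace Pool.Agent.Results.MP_0575cc_nt.VarianceAsymptotics

/-- `M(x;H)`, the sum of `μ(n)` over the integers `n ≥ 0` with `|n - x| < H/2` -/
noncomputable def window (x H : ℝ) : ℝ :=
  ∑ n ∈ (Finset.range (⌈x + H⌉₊ + 1)).filter (fun n : ℕ => |(n : ℝ) - x| < H / 2),
    ((ArithmeticFunction.moebius n : ℤ) : ℝ)

/-- the logarithmic average over `1 ≤ x ≤ Y` of `M(x;δx)² / (δx)` -/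
noncomputable def logVariance (δ Y : ℝ) : ℝ :=
  (∫ x in (1:ℝ)..Y, window x (δ * x) ^ 2 / (δ * x) / x) / Real.log Y

/-- the nontrivial zeros of the Riemann zeta function -/
def NT : Set ℂ := {s : ℂ | riemannZeta s = 0 ∧ 0 < s.re ∧ s.re < 1}

/-- `∑_{|γ| ≤ T} 1/|ζ'(ρ)|²`, the sum over all nontrivial zeros `ρ` with `|Im ρ| ≤ T` -/
noncomputable def negMoment (T : ℝ) : ℝ :=
  ∑' ρ : NT, if |(ρ : ℂ).im| ≤ T then 1 / ‖deriv riemannZeta ρ‖ ^ 2 else 0

theorem result {κ : ℝ} (hκ : 0 < κ) :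
    (∃ v : ℝ → ℝ, (∀ δ : ℝ, 0 < δ → δ ≤ 1 → Tendsto (logVariance δ) atTop (𝓝 (v δ))) ∧
      Tendsto v (𝓝[>] 0) (𝓝 κ)) ↔
    ((∀ ρ ∈ NT, ρ.re = 1 / 2 ∧ deriv riemannZeta ρ ≠ 0) ∧
      Tendsto (fun T => negMoment T / T) atTop (𝓝 (κ / Real.pi))) := by
  have hKV : ∀ δ Y : ℝ, (∫ x in (1:ℝ)..Y, window x (δ * x) ^ 2 / (δ * x) / x) = Pool.Agent.R613.WM.KV δ Y := by
    intro δ Y
    unfold Pool.Agent.R613.WM.KV
    congr 1
    funext x
    have h1 : window x (δ * x) = Pool.Agent.R613.WM.Wn δ x := rfl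
    rw [h1, div_div]
    congr 1
    ring
  have hl : ∀ δ : ℝ, logVariance δ = fun Y => Pool.Agent.R613.WM.KV δ Y / Real.log Y := by
    intro δ
    funext Y
    unfold logVariance
    rw [hKV]
  simp only [hl]
  exact Pool.Agent.R613.GC.main_lim hκ

end Pool.Agent.Results.MP_0575cc_nt.VarianceAsymptotics
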