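import Pool.Agent.R303.SW.Cen

/-!
# The Good-Churchhouse variance on every window, and at isolated points

`M(x;H)` is the sum of `μ(n)` over `|n - x| < H/2` and `V(X;H) = (1/X) ∫_X^{2X} M(x;H)² dx`.

1. If `ζ` has a zero with real part `> θ ≥ 1/2`, then for all `κ ≥ 0` with `4θ(1-θ)(κ+1) ≤ 1`, all
   `c > 0`, all `0 < ε < 1` and all large `X` one has, for all `0 < H ≤ X^(1-ε)` simultaneously,
   `∫_X^{X + cX/(log X)^κ} |M(x;H)| dx ≥ H X^θ`;
2. in particular `V(X;H) ≥ H² X^(2θ-2)` for all large `X` and all these `H`;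
3. the Riemann hypothesis holds if and only if for every `0 < ε < 1` there are arbitrarily large `X` for
   which `V(X;H) ≤ H X^(2ε)` holds for at least one `H` with `X^(1-ε) ≤ H ≤ X^(1-ε/2)`.
-/

set_option autoImplicit false
set_option maxHeartbeats 4000000

open Filter Topology Set MeasureTheory
open Pool.Agent.W190 (SF rh_free)
open Pool.Agent.R303.SW

namespace Pool.Agent.Results.MP_0575cc_nt.VarianceAtIsolatedPoints

/-- `M(x;H)`, the sum of `μ(n)` over the natural numbers `n` with `|n - x| < H/2` -/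
noncomputable def Mw (x H : ℝ) : ℝ :=
  ∑ n ∈ (Finset.range (⌈x + H⌉₊ + 1)).filter (fun n : ℕ => |(n : ℝ) - x| < H / 2),
    ((ArithmeticFunction.moebius n : ℤ) : ℝ)

/-- `V(X;H)` -/
noncomputable def V (X H : ℝ) : ℝ := (1 / X) * ∫ x in X..2 * X, Mw x H ^ 2

/-- the Moebius function -/
noncomputable def a0 (n : ℕ) : ℝ := ((ArithmeticFunction.moebius n : ℤ) : ℝ)

lemma Mw_ae {H : ℝ} (hH : 0 < H) : ∀ᵐ x : ℝ, H / 2 ≤ x → Mw x H = DF a0 H x := by
  filter_upwards [ae_not_nat H] with x hx hx2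
  exact open_window a0 (by simp [a0]) hH hx2 hx

lemma int_congr {H X Y : ℝ} (hH : 0 < H) (hXY : X ≤ Y) (hX : H / 2 ≤ X) (F : ℝ → ℝ) :
    ∫ x in X..Y, F (Mw x H) = ∫ x in X..Y, F (DF a0 H x) := by
  refine intervalIntegral.integral_congr_ae ?_
  filter_upwards [Mw_ae hH] with x hx hx2
  rw [uIoc_of_le hXY] at hx2
  rw [hx (by linarith [hx2.1])]

theorem part1 (θ κ c ε : ℝ) (hθ : 1 / 2 ≤ θ) (hκ : 0 ≤ κ) (hcond : 4 * θ * (1 - θ) * (κ + 1) ≤ 1)
    (hc : 0 < c) (hε : 0 < ε) (hε1 : ε < 1) (hz : ∃ s : ℂ, riemannZeta s = 0 ∧ θ < s.re) :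
    ∀ᶠ X : ℝ in atTop, ∀ H : ℝ, 0 < H → H ≤ X ^ (1 - ε) →
      H * X ^ θ ≤ ∫ x in X..(X + c * X / Real.log X ^ κ), |Mw x H| := by
  obtain ⟨s, hs, hsθ⟩ := hz
  set θ' := (θ + s.re) / 2 with hθ'
  have hθ1 : θ < θ' := by rw [hθ']; linarith
  have hθ2 : θ' < s.re := by rw [hθ']; linarith
  have hcond' : 4 * θ' * (1 - θ') * (κ + 1) ≤ 1 := by
    refine le_trans ?_ hcond
    refine mul_le_mul_of_nonneg_right ?_ (by linarith)
    nlinarith
  have h1 := mertens_short (κ := κ) (c := c / 2 ^ κ) (e0 := ε / 2) hκ (by positivity) (θ := θ')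
    (by linarith) hcond' ⟨s, hs, hθ2⟩ (by linarith)
  have h2 := recentre (f := fun y H => |SF a0 (y + H) - SF a0 y|) (fun y H => abs_nonneg _)
    (fun H x y => by
      have h3 := (DF_II a0 H 0 (x + H / 2) (y + H / 2)).comp_add_right (H / 2)
      have e : (fun x => DF a0 H (x + H / 2) - 0) = fun y => SF a0 (y + H) - SF a0 y := by
        funext z
        unfold DF
        rw [sub_zero, add_sub_cancel_right, add_assoc, add_halves]
      rw [e, add_sub_cancel_right, add_sub_cancel_right] at h3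
      exact h3.abs) hθ1 (by linarith) hκ hc hε hε1 h1
  filter_upwards [h2, eventually_ge_atTop (1:ℝ), Real.tendsto_log_atTop.eventually_gt_atTop 0] with X g1 g2 g3
    H hH hH1
  have hHX : H ≤ X := by
    refine hH1.trans ?_
    conv_rhs => rw [← Real.rpow_one X]
    exact Real.rpow_le_rpow_of_exponent_le g2 (by linarith)
  have hle : X ≤ X + c * X / Real.log X ^ κ := by
    have : 0 ≤ c * X / Real.log X ^ κ := by positivity
    linarith
  refine (g1 H hH hH1).trans (le_of_eq ?_)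
  rw [int_congr hH hle (by linarith) (fun t => |t|)]
  refine intervalIntegral.integral_congr fun x _ => ?_
  simp only [DF]
  rw [sub_add, ← sub_half H]
  ring_nf

theorem cs {X H : ℝ} (hX : 0 < X) (hH : 0 < H) (hHX : H ≤ X) :
    ((1 / X) * ∫ x in X..2 * X, |Mw x H|) ^ 2 ≤ V X H := by
  unfold V
  rw [int_congr hH (by linarith) (by linarith) (fun t => |t|),
    int_congr hH (by linarith) (by linarith) (fun t => t ^ 2)]
  have h1 := (DF_II a0 H 0 X (2 * X)).abs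
  have h2 := DF_II2 a0 H 0 X (2 * X)
  simp only [sub_zero] at h1 h2
  have := cs_int (g := DF a0 H) (X := X) (Y := 2 * X) (by linarith) h1 h2
  rwa [show 2 * X - X = X by ring] at this

theorem part2 (θ ε : ℝ) (hθ : 1 / 2 ≤ θ) (hε : 0 < ε) (hε1 : ε < 1)
    (hz : ∃ s : ℂ, riemannZeta s = 0 ∧ θ < s.re) :
    ∀ᶠ X : ℝ in atTop, ∀ H : ℝ, 0 < H → H ≤ X ^ (1 - ε) → H ^ 2 * X ^ (2 * θ - 2) ≤ V X H := by
  have h1 := part1 θ 0 1 ε hθ le_rfl (by nlinarith [sq_nonneg (2 * θ - 1)]) one_pos hε hε1 hz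
  filter_upwards [h1, eventually_ge_atTop (1:ℝ)] with X g1 g2 H hH hH1
  have hX : 0 < X := by linarith
  have hHX : H ≤ X := by
    refine hH1.trans ?_
    conv_rhs => rw [← Real.rpow_one X]
    exact Real.rpow_le_rpow_of_exponent_le g2 (by linarith)
  refine le_trans ?_ (cs hX hH hHX)
  have h3 := g1 H hH hH1
  rw [Real.rpow_zero, one_mul, div_one, ← two_mul] at h3
  have h4 : H ^ 2 * X ^ (2 * θ - 2) = ((1 / X) * (H * X ^ θ)) ^ 2 := by
    have e1 : X ^ (2 * θ - 2) = X ^ θ * X ^ θ / (X * X) := by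
      rw [← Real.rpow_add hX, show 2 * θ - 2 = (θ + θ) - (2:ℕ) by push_cast; ring, Real.rpow_sub hX,
        Real.rpow_natCast, sq]
    rw [e1]
    field_simp
  rw [h4]
  refine pow_le_pow_left₀ (by positivity) ?_ 2
  exact mul_le_mul_of_nonneg_left h3 (by positivity)

theorem part3a (hrh : RiemannHypothesis) (ε : ℝ) (hε : 0 < ε) (hε1 : ε < 1) :
    ∃ᶠ X : ℝ in atTop, ∃ H : ℝ, X ^ (1 - ε) ≤ H ∧ H ≤ X ^ (1 - ε / 2) ∧ V X H ≤ H * X ^ (2 * ε) := by
  obtain ⟨C, hC⟩ := H353.mertens_of_free (1 / 2) le_rfl (rh_free.1 hrh) (1 / 2 + ε / 4) (by linarith)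
  have hC0 : 0 ≤ C := by
    have := (abs_nonneg _).trans (hC 1 le_rfl)
    simpa using this
  have t1 : ∀ᶠ X : ℝ in atTop, (C * 3 ^ (1 / 2 + ε / 4) + C * 3 ^ (1 / 2 + ε / 4)) ^ 2 ≤ X ^ (ε / 2) :=
    (tendsto_rpow_atTop (by linarith)).eventually_ge_atTop _
  refine Eventually.frequently ?_
  filter_upwards [t1, eventually_ge_atTop (2:ℝ)] with X g1 g2
  have hX : 0 < X := by linarith
  refine ⟨X ^ (1 - ε), le_rfl, Real.rpow_le_rpow_of_exponent_le (by linarith) (by linarith), ?_⟩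
  set H := X ^ (1 - ε) with hH
  have hH0 : 0 < H := by positivity
  have hHX : H ≤ X := by
    conv_rhs => rw [← Real.rpow_one X]
    exact Real.rpow_le_rpow_of_exponent_le (by linarith) (by linarith)
  unfold V
  rw [int_congr hH0 (by linarith) (by linarith) (fun t => t ^ 2)]
  set K := C * (3 * X) ^ (1 / 2 + ε / 4) with hK
  have hb : ∀ z : ℝ, 1 ≤ z → z ≤ 3 * X → |SF a0 z| ≤ K := by
    intro z h1 h2
    refine (hC z h1).trans ?_
    rw [hK]
    exact mul_le_mul_of_nonneg_left (Real.rpow_le_rpow (by linarith) h2 (by linarith)) hC0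
  have h1 : ∫ x in X..2 * X, DF a0 H x ^ 2 ≤ ∫ x in X..2 * X, (K + K) ^ 2 := by
    have h2 := DF_II2 a0 H 0 X (2 * X)
    simp only [sub_zero] at h2
    refine intervalIntegral.integral_mono_on (by linarith) h2 intervalIntegrable_const fun x hx => ?_
    rw [← sq_abs (DF a0 H x)]
    refine pow_le_pow_left₀ (abs_nonneg _) ?_ 2
    unfold DF
    exact (abs_sub _ _).trans (add_le_add (hb _ (by linarith [hx.1]) (by linarith [hx.2]))
      (hb _ (by linarith [hx.1]) (by linarith [hx.2])))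
  rw [intervalIntegral.integral_const, smul_eq_mul] at h1
  have e1 : K + K = (C * 3 ^ (1 / 2 + ε / 4) + C * 3 ^ (1 / 2 + ε / 4)) * X ^ (1 / 2 + ε / 4) := by
    rw [hK, Real.mul_rpow (by norm_num) hX.le]
    ring
  have e2 : (X ^ (1 / 2 + ε / 4)) ^ 2 = X ^ (1 + ε / 2) := by
    rw [← Real.rpow_natCast, ← Real.rpow_mul hX.le]
    congr 1
    push_cast
    ring
  calc 1 / X * ∫ x in X..2 * X, DF a0 H x ^ 2 ≤ 1 / X * ((2 * X - X) * (K + K) ^ 2) :=
        mul_le_mul_of_nonneg_left h1 (by positivity)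
    _ = (K + K) ^ 2 := by field_simp; ring
    _ = (C * 3 ^ (1 / 2 + ε / 4) + C * 3 ^ (1 / 2 + ε / 4)) ^ 2 * X ^ (1 + ε / 2) := by
        rw [e1, mul_pow, e2]
    _ ≤ X ^ (ε / 2) * X ^ (1 + ε / 2) := by gcongr
    _ = H * X ^ (2 * ε) := by
        rw [hH, ← Real.rpow_add hX, ← Real.rpow_add hX]
        congr 1
        ring

theorem part3b (h : ∀ ε : ℝ, 0 < ε → ε < 1 →
      ∃ᶠ X : ℝ in atTop, ∃ H : ℝ, X ^ (1 - ε) ≤ H ∧ H ≤ X ^ (1 - ε / 2) ∧ V X H ≤ H * X ^ (2 * ε)) :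
    RiemannHypothesis := by
  rw [rh_free]
  intro s hs hz
  have hs1 : s.re < 1 := (Pool.Agent.W190.zero_FF hz).2
  set θ := (1 / 2 + s.re) / 2 with hθ
  have h1 : 1 / 2 < θ := by rw [hθ]; linarith
  have h2 : θ < s.re := by rw [hθ]; linarith
  set ε := (2 * θ - 1) / 4 with hε
  have hε0 : 0 < ε := by rw [hε]; linarith
  have hε1 : ε < 1 := by rw [hε]; linarith
  have h3 := part2 θ (ε / 2) h1.le (by linarith) (by linarith) ⟨s, hz, h2⟩
  obtain ⟨X, ⟨H, a1, a2, a3⟩, a4, a5⟩ := ((h ε hε0 hε1).and_eventually (h3.and (eventually_gt_atTop 1))).exists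
  have hX : 0 < X := by linarith
  have hH : 0 < H := lt_of_lt_of_le (by positivity) a1
  have a6 := a4 H hH a2
  have a7 : X ^ (1 - ε) * X ^ (2 * θ - 2) ≤ X ^ (2 * ε) := by
    have : H * (X ^ (1 - ε) * X ^ (2 * θ - 2)) ≤ H * X ^ (2 * ε) := by
      calc H * (X ^ (1 - ε) * X ^ (2 * θ - 2)) ≤ H * (H * X ^ (2 * θ - 2)) := by gcongr
        _ = H ^ 2 * X ^ (2 * θ - 2) := by ring
        _ ≤ _ := a6.trans a3
    exact le_of_mul_le_mul_left this hH
  rw [← Real.rpow_add hX] at a7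
  have a8 := (Real.rpow_le_rpow_left_iff a5).1 a7
  rw [hε] at a8
  linarith

/-- The Good-Churchhouse variance on every window; the Riemann hypothesis from isolated points. -/
theorem result :
    (∀ θ κ c ε : ℝ, 1 / 2 ≤ θ → 0 ≤ κ → 4 * θ * (1 - θ) * (κ + 1) ≤ 1 → 0 < c → 0 < ε → ε < 1 →
      (∃ s : ℂ, riemannZeta s = 0 ∧ θ < s.re) →
      ∀ᶠ X : ℝ in atTop, ∀ H : ℝ, 0 < H → H ≤ X ^ (1 - ε) →
        H * X ^ θ ≤ ∫ x in X..(X + c * X / Real.log X ^ κ), |Mw x H|) ∧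
    (∀ θ ε : ℝ, 1 / 2 ≤ θ → 0 < ε → ε < 1 → (∃ s : ℂ, riemannZeta s = 0 ∧ θ < s.re) →
      ∀ᶠ X : ℝ in atTop, ∀ H : ℝ, 0 < H → H ≤ X ^ (1 - ε) → H ^ 2 * X ^ (2 * θ - 2) ≤ V X H) ∧
    (RiemannHypothesis ↔ ∀ ε : ℝ, 0 < ε → ε < 1 →
      ∃ᶠ X : ℝ in atTop, ∃ H : ℝ, X ^ (1 - ε) ≤ H ∧ H ≤ X ^ (1 - ε / 2) ∧ V X H ≤ H * X ^ (2 * ε)) :=
  ⟨part1, part2, part3a, part3b⟩

end Pool.Agent.Results.MP_0575cc_nt.VarianceAtIsolatedPoints
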